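import Pool.Agent.H47.KS.Sym

/-!
MP_90d669_co, board ksu_modules, row CLM.
-/

set_option autoImplicit false

namespace Pool.Agent.H47.KSU

open Finset Pool.Agent.H37.SP Pool.Agent.H47.KS

lemma sum_type_bounds {N : ℕ} {s : Fin N → ℤ} (hs : ∀ x, s x = 0 ∨ s x = 1)
    (Y : Finset (Fin N)) : 0 ≤ ∑ x ∈ Y, s x ∧ ∑ x ∈ Y, s x ≤ Y.card := by
  constructor
  · exact sum_nonneg fun x _ => by rcases hs x with h | h <;> omega
  · refine (sum_le_card_nsmul Y s 1 fun x _ => by rcases hs x with h | h <;> omega).trans ?_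
    simp

lemma g0_ge {P : Par} (hP : P.Ok) : 2 * P.n ≤ P.g0 := by
  unfold Par.g0
  have h1 : 1 ≤ P.n := by
    unfold Par.n
    have := hP.nu1
    omega
  have h2 : P.n * 1 ≤ P.n * P.n ^ 2 := Nat.mul_le_mul_left _ (Nat.one_le_pow _ _ h1)
  have h3 : P.n ^ 3 = P.n * P.n ^ 2 := by ring
  rw [h3]
  omega

theorem core (hVAL : T_VAL) (hQF : T_QF) (hQUA : T_QUA) (hOFF : T_OFF) (P : Par) {N : ℕ}
    (G : SimpleGraph (Fin N)) (C K I Z : Finset (Fin N)) (wK wI : ℤ) (sK sI : Fin N → ℤ)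
    (hP : P.Ok) (hE : Exact P G C K I Z wK wI sK sI 0) (hZ : Z.card = P.N2)
    (hg : (P.g0 : ℤ) ≤ |wK - wI|) (hR : ¬ R1 P (SS P.k G) (ee G C)) :
    Prg P (SS P.k G) (ee G C) := by
  classical
  obtain ⟨a, b, hb, hf⟩ := hQF N G C wK wI sK sI
  obtain ⟨Y, hY, hYc, hY0⟩ := hQUA N P.d P.nu Z
    (fun Y => off G C wK wI sK sI Y - off G C wK wI sK sI ∅) a b hP.d1 hP.nu1 hP.dd
    (by rw [hZ]; rfl) hb (fun Y _ => hf Y) (fun T hT => by
      by_contra hc
      rw [not_lt] at hc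
      apply hR
      refine hOFF P N G C K I Z wK wI sK sI T hP hE hg hT ?_
      have h1 : T.image (fun Y => off G C wK wI sK sI Y - off G C wK wI sK sI ∅) =
          (T.image (off G C wK wI sK sI)).image (fun z => z - off G C wK wI sK sI ∅) := by
        rw [image_image]
        rfl
      rw [h1] at hc
      exact hc.trans card_image_le)
  have hoff : off G C wK wI sK sI Y = off G C wK wI sK sI ∅ := by
    have : off G C wK wI sK sI Y - off G C wK wI sK sI ∅ = 0 := hY0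
    omega
  have hoff0 : off G C wK wI sK sI ∅ = ee G C - C2 (wK - wI) := by
    unfold off slp
    simp [ee_empty]
  have hYn : Y.card ≤ P.n := by
    rw [hYc]
    unfold Par.n
    omega
  refine ⟨1, off G C wK wI sK sI ∅, wK - wI, slp wK wI sK sI Y, Or.inl rfl, hg, ?_, ?_⟩
  · rw [hoff0]
    ring
  · intro l h1 h2
    have ht0 : 0 ≤ l - slp wK wI sK sI Y := by omega
    obtain ⟨t, ht⟩ := Int.eq_ofNat_of_zero_le ht0
    have htY : t ≤ Y.card := by
      rw [hYc]
      omega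
    obtain ⟨h3, h4⟩ := hVAL P N G C K I Z Y wK wI sK sI t hP hE hY hYn htY
    have hl : (t : ℤ) + slp wK wI sK sI Y = l := by omega
    rw [hl, hoff] at h3 h4
    rw [one_mul]
    refine ⟨?_, h3, h4⟩
    have b1 := sum_type_bounds hE.tK Y
    have b2 := sum_type_bounds hE.tI Y
    have b3 : (P.g0 : ℤ) ≥ 2 * (P.n : ℤ) := by exact_mod_cast g0_ge hP
    have b4 : (P.n : ℤ) = 8 * P.nu := by
      unfold Par.n
      push_cast
      rfl
    have b5 : (Y.card : ℤ) = 4 * P.nu := by rw [hYc]; push_cast; rfl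
    have b6 : slp wK wI sK sI Y = wK - wI + ∑ x ∈ Y, sI x - ∑ x ∈ Y, sK x := rfl
    rw [b5] at b1 b2
    rcases le_or_gt 0 (wK - wI) with hs | hs
    · rw [abs_of_nonneg hs] at hg
      have : 0 ≤ l := by omega
      rw [abs_of_nonneg this]
      omega
    · rw [abs_of_neg hs] at hg
      have : l < 0 := by omega
      rw [abs_of_neg this]
      omega

theorem pf_CLM (hLKB : T_LKB) (hLX : T_LX) (hVAL : T_VAL) (hQF : T_QF) (hQUA : T_QUA)
    (hOFF : T_OFF) : T_CLM := by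
  classical
  intro P N G C K I wK wI hP hB hg
  by_cases hR : R1 P (SS P.k G) (ee G C)
  · exact Or.inl hR
  right
  have hec : ee Gᶜ C = C2 P.k - ee G C := by rw [ee_compl, hB.cC]
  have hR' : ¬ R1 P (SS P.k Gᶜ) (ee Gᶜ C) := by
    intro h
    rw [hec] at h
    exact hR (R1_compl h)
  obtain ⟨K', hK', hK'c, s, hs, hsK⟩ := hLKB P N G C K I wK wI hP hB hg hR
  have hg' : (P.g0 : ℤ) ≤ |((P.k : ℤ) - wI) - (P.k - wK)| := by
    have : ((P.k : ℤ) - wI) - (P.k - wK) = wK - wI := by ring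
    rw [this]
    exact hg
  obtain ⟨I', hI', hI'c, s', hs', hsI⟩ := hLKB P N Gᶜ C I K _ _ hP hB.compl hg' hR'
  have hN2 : P.N2 ≤ C.card := by
    rw [hB.cC]
    have := hP.kN
    omega
  obtain ⟨Z, hZ, hZc⟩ := exists_subset_card_eq hN2
  have hs'' : ∀ x, (1 - s' x = 0) ∨ (1 - s' x = 1) := fun x => by
    rcases hs' x with h | h <;> simp [h]
  have hsI' : ∀ z ∈ C ∪ K, (I'.filter (fun a => aa G a z ≠ 1 - s' z)).card ≤ 2 * P.E := by
    intro z hz
    refine le_trans (card_le_card ?_) (hsI z hz)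
    intro x hx
    rw [mem_filter] at hx ⊢
    refine ⟨hx.1, ?_⟩
    have hne : x ≠ z := by
      rintro rfl
      rcases mem_union.1 hz with h | h
      · exact disjoint_left.1 hB.dIC (hI' hx.1) h
      · exact disjoint_left.1 hB.dKI h (hI' hx.1)
    rw [aa_compl G hne]
    intro h
    apply hx.2
    omega
  obtain ⟨K3, I3, h, hE⟩ := hLX P N G C K I Z K' I' wK wI s (fun x => 1 - s' x) hP hB hZ hZc
    hK' hI' hK'c hI'c hs hs'' hsK hsI'
  rcases hE.th with h0 | h1
  · rw [h0] at hE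
    exact core hVAL hQF hQUA hOFF P G C K3 I3 Z wK wI s (fun x => 1 - s' x) hP hE hZc hg hR
  · rw [h1] at hE
    have hE' := hE.compl
    rw [sub_self] at hE'
    have := core hVAL hQF hQUA hOFF P Gᶜ C I3 K3 Z _ _ _ _ hP hE' hZc hg' hR'
    rw [hec] at this
    exact Prg_compl this

end Pool.Agent.H47.KSU
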