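import Pool.Agent.H47.KS.Basic
import Pool.Agent.H47.KS.Targets

/-!
Row LGD: two good indices.
-/

set_option autoImplicit false

namespace Pool.Agent.H47.KSU

open Finset Pool.Agent.H47.KS

theorem pf_LGD (hPCD : T_PCD) : T_LGD := by
  classical
  intro P N G C K I X wK wI hP hB hgap hR hX hXn
  by_contra hcon
  push Not at hcon
  have hnu := hP.nu1
  have hn : P.n = 8 * P.nu := rfl
  have hkN := hP.kN
  have hN1 := hP.N1
  -- bad indices
  set B := (Icc (2 * P.nu) (6 * P.nu)).filter fun i => ¬ Good P G C X wK wI i with hBdef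
  have hgood : ((Icc (2 * P.nu) (6 * P.nu)).filter fun i => Good P G C X wK wI i).card ≤ 1 := by
    rw [Finset.card_le_one]
    intro i hi j hj
    obtain ⟨hi1, hi2⟩ := mem_filter.mp hi
    obtain ⟨hj1, hj2⟩ := mem_filter.mp hj
    have hi3 := mem_Icc.mp hi1
    have hj3 := mem_Icc.mp hj1
    by_contra hne
    rcases Nat.lt_or_gt_of_ne hne with h | h
    · exact hcon i j h hi3.1 hj3.2 hi2 hj2
    · exact hcon j i h hj3.1 hi3.2 hj2 hi2
  have hcard : P.nu ≤ B.card := by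
    have h1 : Icc (2 * P.nu) (6 * P.nu) \
        ((Icc (2 * P.nu) (6 * P.nu)).filter fun i => Good P G C X wK wI i) ⊆ B := by
      intro i hi
      obtain ⟨hi1, hi2⟩ := mem_sdiff.mp hi
      exact mem_filter.mpr ⟨hi1, fun h => hi2 (mem_filter.mpr ⟨hi1, h⟩)⟩
    have h2 := card_le_card h1
    rw [card_sdiff_of_subset (filter_subset _ _), Nat.card_Icc] at h2
    omega
  obtain ⟨B', hB', hB'c⟩ := exists_subset_card_eq hcard
  set en : Fin P.nu ≃ B' := (Fintype.equivFinOfCardEq (by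
    rw [Fintype.card_coe, hB'c])).symm with hen
  have hbad : ∀ j : Fin P.nu, ∃ b g : ℤ, g ≠ 0 ∧ ∀ z ∈ prog b g 0 P.x0, z ∈ SS P.k G ∧
      |z - posL P G C X wK wI (en j)| ≤ (P.n : ℤ) ^ 2 := by
    intro j
    have := (mem_filter.mp (hB' (en j).2)).2
    unfold Good at this
    exact not_not.mp this
  choose b g hg hz using hbad
  have hrange : ∀ j : Fin P.nu, ((en j : ℕ)) ≤ 6 * P.nu := fun j =>
    (mem_Icc.mp (mem_filter.mp (hB' (en j).2)).1).2
  -- positions
  have hn0 : (8 : ℤ) ≤ P.n := by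
    have : 8 ≤ P.n := by omega
    exact_mod_cast this
  have hKne : K.Nonempty := card_pos.1 (by rw [hB.cK]; omega)
  have hIne : I.Nonempty := card_pos.1 (by rw [hB.cI]; omega)
  obtain ⟨a, ha⟩ := hKne
  obtain ⟨c, hc⟩ := hIne
  have hK0 : 0 ≤ wK ∧ wK ≤ P.k := by
    rw [← hB.wtK a ha, ← hB.cC]
    exact ⟨dg_nonneg G C a, dg_le G C a⟩
  have hI0 : 0 ≤ wI ∧ wI ≤ P.k := by
    rw [← hB.wtI c hc, ← hB.cC]
    exact ⟨dg_nonneg G C c, dg_le G C c⟩
  have hpos : ∀ i : ℕ, i ≤ 6 * P.nu → |posL P G C X wK wI i - ee G C| ≤ (P.n : ℤ) * P.k := by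
    intro i hi
    have h1 : ee G (C \ X) ≤ ee G C := ee_mono G sdiff_subset
    have h2 := ee_sdiff G hX
    have h3 : ∑ x ∈ X, dg G C x ≤ (P.n : ℤ) * P.k := by
      refine (sum_le_card_nsmul _ _ _ fun x _ => dg_le G C x).trans ?_
      rw [nsmul_eq_mul, hXn, hB.cC]
    have h4 := ee_nonneg G X
    have hin : (i : ℤ) ≤ P.n := by
      have : i ≤ P.n := by omega
      exact_mod_cast this
    have hi0 : (0 : ℤ) ≤ i := by positivity
    have h5 : 0 ≤ ((P.n : ℤ) - i) * wK + (i : ℤ) * wI :=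
      add_nonneg (mul_nonneg (by linarith) hK0.1) (mul_nonneg hi0 hI0.1)
    have h6 : ((P.n : ℤ) - i) * wK + (i : ℤ) * wI ≤ (P.n : ℤ) * P.k := by
      have e1 := mul_le_mul_of_nonneg_left hK0.2 (by linarith : (0 : ℤ) ≤ (P.n : ℤ) - i)
      have e2 := mul_le_mul_of_nonneg_left hI0.2 hi0
      have e3 : ((P.n : ℤ) - i) * P.k + (i : ℤ) * P.k = (P.n : ℤ) * P.k := by ring
      linarith
    unfold posL
    rw [abs_le]
    constructor <;> linarith
  have hnk : (P.n : ℤ) ≤ P.k := by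
    have : P.n ≤ P.k := by omega
    exact_mod_cast this
  have hL1 : (4 : ℤ) * P.n * P.k ≤ P.L1 := by exact_mod_cast hP.L1
  -- disjointness
  have hdis : ∀ i j : Fin P.nu, i ≠ j →
      Disjoint (prog (b i) (g i) 0 P.x0) (prog (b j) (g j) 0 P.x0) := by
    intro i j hij
    rw [disjoint_left]
    intro z hzi hzj
    have h1 := (hz i z hzi).2
    have h2 := (hz j z hzj).2
    have h3 : posL P G C X wK wI (en i) - posL P G C X wK wI (en j) =
        (((en j : ℕ) : ℤ) - ((en i : ℕ) : ℤ)) * (wK - wI) := by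
      unfold posL
      ring
    have h4 : |posL P G C X wK wI (en i) - posL P G C X wK wI (en j)| ≤ 2 * (P.n : ℤ) ^ 2 := by
      rw [abs_le] at h1 h2 ⊢
      constructor <;> linarith
    rw [h3, abs_mul] at h4
    have h5 : (1 : ℤ) ≤ |((en j : ℕ) : ℤ) - ((en i : ℕ) : ℤ)| := by
      have h6 : ((en j : ℕ) : ℤ) - ((en i : ℕ) : ℤ) ≠ 0 := by
        intro h7
        apply hij
        have h8 : (en i : ℕ) = (en j : ℕ) := by omega
        exact en.injective (Subtype.ext h8)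
      exact Int.one_le_abs h6
    have h6 : (P.g0 : ℤ) ≤ |((en j : ℕ) : ℤ) - ((en i : ℕ) : ℤ)| * |wK - wI| := by
      have := mul_le_mul_of_nonneg_right h5 (abs_nonneg (wK - wI))
      linarith
    have h7 : (P.g0 : ℤ) = 16 * (P.n : ℤ) ^ 3 := by
      have : P.g0 = 16 * P.n ^ 3 := rfl
      rw [this]
      push_cast
      ring
    have h8 : 16 * (P.n : ℤ) ^ 3 ≤ 2 * (P.n : ℤ) ^ 2 := by linarith
    nlinarith [sq_nonneg (P.n : ℤ), mul_pos (by linarith : (0 : ℤ) < P.n)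
      (by linarith : (0 : ℤ) < P.n)]
  apply hR
  refine ⟨(univ : Finset (Fin P.nu)).biUnion (fun i => prog (b i) (g i) 0 P.x0),
    Or.inr (Or.inl ⟨b, g, fun _ => 0, fun _ => by simp, rfl⟩), ?_, ?_⟩
  · intro z hzT
    obtain ⟨i, -, hi⟩ := mem_biUnion.mp hzT
    obtain ⟨h1, h2⟩ := hz i z hi
    refine ⟨h1, ?_⟩
    have h3 := hpos (en i) (hrange i)
    have h4 : (P.n : ℤ) ^ 2 ≤ (P.n : ℤ) * P.k := by nlinarith
    have h5 : (0 : ℤ) ≤ (P.n : ℤ) * P.k := by positivity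
    rw [abs_le] at h2 h3 ⊢
    constructor <;> linarith
  · rw [card_biUnion fun i _ j _ hij => hdis i j hij]
    have h1 : ∀ i : Fin P.nu, (prog (b i) (g i) 0 P.x0).card = P.x0 := fun i =>
      (hPCD (b i) (g i) 0 P.x0).1 (hg i)
    rw [sum_congr rfl fun i _ => h1 i, sum_const, card_univ, Fintype.card_fin, smul_eq_mul]
    have := hP.tx
    omega

end Pool.Agent.H47.KSU
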