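import Pool.Agent.H47.KS.Sym

/-!
MP_90d669_co, board ksu_modules, row LOC.
-/

set_option autoImplicit false

namespace Pool.Agent.H47.KSU

open Finset Pool.Agent.H37.SP Pool.Agent.H47.KS

theorem pf_LOC (hANC : T_ANC) (hFEW : T_FEW) (hCSR : T_CSR) (hCLM : T_CLM) : T_LOC := by
  classical
  intro P N G A0 A1 C hP hA0 hA1 hC h0 h1 hJ
  by_cases hR : R1 P (SS P.k G) (ee G C)
  · exact Or.inl hR
  have hec : ee Gᶜ C = C2 P.k - ee G C := by rw [ee_compl, hC]
  have hR' : ¬ R1 P (SS P.k Gᶜ) (ee Gᶜ C) := by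
    intro h
    rw [hec] at h
    exact hR (R1_compl h)
  obtain ⟨K, hKA, hKC, hKc, hK⟩ := hANC P N G A1 C hP hA1 hC h1 hJ.2
  have h2k := two_C2 (P.k : ℤ)
  have hk0 : (0 : ℤ) ≤ P.k := Int.natCast_nonneg _
  obtain ⟨I, hIA, hIC, hIc, hI⟩ := hANC P N Gᶜ A0 C hP hA0 hC
    (by rw [ee_compl, hA0]; omega) (by
      rw [hec]
      have := hJ.1
      nlinarith)
  have hI' : ∀ x ∈ I, ∀ y ∈ I, x ≠ y → aa G x y = 0 := by
    intro x hx y hy hxy
    have := hI x hx y hy hxy
    rw [aa_compl G hxy] at this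
    omega
  -- the common part has at most one element
  have hint : (I ∩ K).card ≤ 1 := by
    rw [card_le_one]
    intro x hx y hy
    rw [mem_inter] at hx hy
    by_contra hxy
    have e1 := hI' x hx.1 y hy.1 hxy
    have e2 := hK x hx.2 y hy.2 hxy
    omega
  have hI0c : P.m ≤ (I \ K).card + 1 := by
    have := card_sdiff_add_card_inter I K
    omega
  have hm := hP.m
  obtain ⟨K1, hK1, hK1c, wK, hwK⟩ := hFEW P N G C K 1 hP hC hKC hK (by omega) hR
  obtain ⟨I1, hI1, hI1c, wI, hwI⟩ := hFEW P N G C (I \ K) 0 hP hC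
    (hIC.mono_left sdiff_subset)
    (fun a ha b hb hab => hI' a (mem_sdiff.1 ha).1 b (mem_sdiff.1 hb).1 hab) (by omega) hR
  have hB : Base P G C K1 I1 wK wI :=
    { cC := hC
      cK := hK1c
      cI := hI1c
      dKC := hKC.mono_left hK1
      dIC := (hIC.mono_left sdiff_subset).mono_left hI1
      dKI := (disjoint_sdiff (s := K) (t := I)).mono hK1 hI1
      clq := fun a ha b hb hab => hK a (hK1 ha) b (hK1 hb) hab
      ind := fun a ha b hb hab =>
        hI' a (mem_sdiff.1 (hI1 ha)).1 b (mem_sdiff.1 (hI1 hb)).1 hab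
      wtK := hwK
      wtI := hwI }
  rcases lt_or_ge |wK - wI| (P.g0 : ℤ) with hg | hg
  · rcases hCSR P N G C K1 I1 wK wI hP hB hg with h | h
    · exact Or.inl h
    · exact Or.inr (Or.inl h)
  · rcases hCLM P N G C K1 I1 wK wI hP hB hg with h | h
    · exact Or.inl h
    · exact Or.inr (Or.inr h)

end Pool.Agent.H47.KSU
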