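import Pool.Agent.H47.KS.Targets

/-!
MP_90d669_co, board ksu_modules, row NUM: the parameters.
-/

set_option autoImplicit false

namespace Pool.Agent.H47.KSU

open Finset Pool.Agent.H37.SP Pool.Agent.H47.KS

/-- the parameters belonging to `t` and `k` -/
def par (t k : ℕ) : Par where
  k := k
  nu := 10 ^ 12 * t ^ 2
  x0 := 4 * 10 ^ 6 * t
  d := 10 ^ 6 * t
  p := Nat.sqrt (2 * 10 ^ 18 * t ^ 3) + 1
  t1 := 2 * 10 ^ 18 * t ^ 3
  L1 := 32 * 10 ^ 12 * t ^ 2 * k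
  t2 := 2 * 10 ^ 6 * t
  L2 := 2 * 10 ^ 66 * t ^ 10
  N1 := 10 ^ 46 * t ^ 7
  m := 10 ^ 66 * t ^ 10
  q := 41 * t
  D := 2 * k * t

lemma up {t : ℕ} (ht : 10 ^ 80 ≤ t) (i : ℕ) : 10 ^ 80 * t ^ i ≤ t ^ (i + 1) :=
  calc 10 ^ 80 * t ^ i ≤ t * t ^ i := Nat.mul_le_mul_right _ ht
    _ = t ^ (i + 1) := by ring

lemma ok {t k : ℕ} (ht : 10 ^ 80 ≤ t) (hk : t ^ 12 ≤ k) : (par t k).Ok := by
  have u0 := up ht 0
  have u1 := up ht 1
  have u2 := up ht 2
  have u3 := up ht 3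
  have u4 := up ht 4
  have u5 := up ht 5
  have u6 := up ht 6
  have u7 := up ht 7
  have u8 := up ht 8
  have u9 := up ht 9
  have u10 := up ht 10
  have u11 := up ht 11
  simp only [pow_zero, mul_one, zero_add, pow_one] at u0
  simp only [pow_one] at u1
  norm_num at u0 u1 u2 u3 u4 u5 u6 u7 u8 u9 u10 u11
  have hs : ∃ s, Nat.sqrt (2 * 10 ^ 18 * t ^ 3) = s := ⟨_, rfl⟩
  obtain ⟨s, hs⟩ := hs
  have s1 : s * s ≤ 2 * 10 ^ 18 * t ^ 3 := by rw [← hs]; exact Nat.sqrt_le _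
  have s2 : 2 * 10 ^ 18 * t ^ 3 < (s + 1) * (s + 1) := by rw [← hs]; exact Nat.lt_succ_sqrt _
  have s3 : s ≤ 10 ^ 10 * t ^ 2 := by
    by_contra h
    rw [not_le] at h
    have h1 : (10 ^ 10 * t ^ 2) * (10 ^ 10 * t ^ 2) ≤ s * s := Nat.mul_le_mul h.le h.le
    have h2 : (10 ^ 10 * t ^ 2) * (10 ^ 10 * t ^ 2) = 10 ^ 20 * t ^ 4 := by ring
    rw [h2] at h1
    norm_num at h1 s1
    linarith
  have k2 : 2 ≤ k := by linarith
  have kt : ∀ i, 10 ^ 80 * (k * t ^ i) ≤ k * t ^ (i + 1) := fun i => by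
    have := Nat.mul_le_mul_left k (up ht i)
    calc 10 ^ 80 * (k * t ^ i) = k * (10 ^ 80 * t ^ i) := by ring
      _ ≤ _ := this
  have kk : ∀ i, i ≤ 12 → k * t ^ i ≤ k * k := fun i hi =>
    Nat.mul_le_mul_left k (le_trans (Nat.pow_le_pow_right (by linarith) hi) hk)
  have v0 := kt 0
  have v1 := kt 1
  have v2 := kt 2
  have v8 := kt 8
  have kk2 := kk 2 (by norm_num)
  simp only [pow_zero, mul_one, zero_add, pow_one] at v0
  simp only [pow_one] at v1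
  norm_num at v0 v1 v2 v8
  refine
    { k2 := k2
      nu1 := ?_
      d1 := ?_
      x2 := ?_
      xnu := ?_
      p1 := ?_
      pn := ?_
      tp := ?_
      tx := ?_
      td := ?_
      dd := ?_
      L1 := ?_
      t2 := ?_
      L2 := ?_
      N1 := ?_
      kN := ?_
      m := ?_
      aq := ?_
      mq := ?_
      av := ?_
      fin := ?_ } <;> simp only [par, Par.n, Par.E, Par.u, Par.N2, Par.g0, Par.H, Par.g1, hs]
  · linarith
  · linarith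
  · linarith
  · linarith
  · linarith
  · linarith
  · nlinarith
  · exact le_of_eq (by ring)
  · have e1 : 2 * 10 ^ 18 * t ^ 3 + (10 ^ 6 * t) ^ 2 = 2 * 10 ^ 18 * t ^ 3 + 10 ^ 12 * t ^ 2 := by
      ring
    have e2 : 4 * (10 ^ 12 * t ^ 2) * (10 ^ 6 * t) = 4 * 10 ^ 18 * t ^ 3 := by ring
    rw [e1, e2]
    linarith
  · have e1 : (10 ^ 6 * t) ^ 2 = 10 ^ 12 * t ^ 2 := by ring
    rw [e1]
    linarith
  · exact le_of_eq (by ring)
  · exact le_of_eq (by ring)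
  · ring_nf
    linarith
  · ring_nf
    linarith
  · ring_nf
    linarith
  · have e1 : 2 * (s + 1) * (s + 1 + 1) = 2 * (s * s) + 6 * s + 4 := by ring
    rw [e1]
    have e2 : 2 * (s * s) + 6 * s + 4 ≤ 5 * 10 ^ 18 * t ^ 3 := by linarith
    have e3 := Nat.mul_le_mul_right (10 ^ 46 * t ^ 7) e2
    have e4 : 5 * 10 ^ 18 * t ^ 3 * (10 ^ 46 * t ^ 7) = 5 * 10 ^ 64 * t ^ 10 := by ring
    rw [e4] at e3
    linarith
  · have e1 : 20 * (2 * k * t + 3) = 40 * (k * t) + 60 := by ring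
    have e2 : (41 * t + 1) * k = 41 * (k * t) + k := by ring
    rw [e1, e2]
    linarith
  · ring_nf
    linarith
  · have e1 : 10 * k + 25 * (2 * k * t + 3) = 10 * k + 50 * (k * t) + 75 := by ring
    have e2 : k ^ 2 = k * k := by ring
    rw [e1, e2]
    linarith
  · have a1 : 4800 * (10 ^ 6 * t) ≤ 16 * (8 * (10 ^ 12 * t ^ 2)) ^ 3 := by
      have e1 : 16 * (8 * (10 ^ 12 * t ^ 2)) ^ 3 = 8192 * 10 ^ 36 * t ^ 6 := by ring
      rw [e1]
      linarith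
    have a2 : 4800 * (10 ^ 6 * t) ≤ 8 * (10 ^ 12 * t ^ 2) * k := by
      have e1 : 8 * (10 ^ 12 * t ^ 2) * k = 8 * 10 ^ 12 * (k * t ^ 2) := by ring
      rw [e1]
      linarith
    have b1 := Nat.mul_le_mul_right (8 * (10 ^ 12 * t ^ 2) * k) a1
    have b2 := Nat.mul_le_mul_right (16 * (8 * (10 ^ 12 * t ^ 2)) ^ 3) a2
    generalize 16 * (8 * (10 ^ 12 * t ^ 2)) ^ 3 = g at b1 b2 ⊢
    generalize 10 ^ 6 * t = d at b1 b2 ⊢
    have e3 : 1200 * d * (2 * (8 * (10 ^ 12 * t ^ 2)) * k + 2 * g) =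
        2400 * d * (8 * (10 ^ 12 * t ^ 2) * k) + 2400 * d * g := by ring
    rw [e3]
    generalize 8 * (10 ^ 12 * t ^ 2) * k = nk at b1 b2 ⊢
    nlinarith

lemma two_pow_lt {t k : ℕ} (hk : k < (t + 1) ^ 12) : k ≤ 2 ^ (12 * t) := by
  have h1 : t + 1 ≤ 2 ^ t := Nat.lt_two_pow_self
  calc k ≤ (t + 1) ^ 12 := hk.le
    _ ≤ (2 ^ t) ^ 12 := Nat.pow_le_pow_left h1 12
    _ = 2 ^ (12 * t) := by rw [← pow_mul, mul_comm]

/-- one progression -/
lemma fam1 {t k : ℕ} (ht : 10 ^ 80 ≤ t) (h2 : 2 ≤ k) (hk : k < (t + 1) ^ 12) :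
    3 * (2 * k.choose 2 + 1) ^ 2 ≤ 2 ^ (50 * t) := by
  have h1 := two_pow_lt hk
  have h3 : 2 * k.choose 2 + 1 ≤ k * k := by
    have e1 : k.choose 2 * 2 = k * (k - 1) := by
      rw [Nat.choose_two_right]
      exact Nat.div_mul_cancel (Nat.even_mul_pred_self k).two_dvd
    obtain ⟨j, rfl⟩ : ∃ j, k = j + 1 := ⟨k - 1, by omega⟩
    rw [Nat.add_sub_cancel] at e1
    nlinarith
  have h4 : 2 * k.choose 2 + 1 ≤ 2 ^ (24 * t) := by
    refine h3.trans ((Nat.mul_le_mul h1 h1).trans (le_of_eq ?_))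
    rw [← pow_add]
    congr 1
    ring
  calc 3 * (2 * k.choose 2 + 1) ^ 2 ≤ 2 ^ 2 * (2 ^ (24 * t)) ^ 2 :=
        Nat.mul_le_mul (by norm_num) (Nat.pow_le_pow_left h4 2)
    _ = 2 ^ (48 * t + 2) := by
        rw [← pow_mul, ← pow_add]
        congr 1
        ring
    _ ≤ 2 ^ (50 * t) := Nat.pow_le_pow_right (by norm_num) (by
        have : 1 ≤ t := le_trans (by norm_num) ht
        omega)

lemma cardJ (k : ℕ) : 6 * k ^ 2 ≤ 100 * (Jset k).card + 100 := by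
  have h : ((Jset k).card : ℤ) =
      (28 * (k : ℤ) ^ 2 / 100 + 1 - (22 * (k : ℤ) ^ 2 + 99) / 100).toNat := by
    unfold Jset
    rw [Int.card_Icc]
  have h2 : (6 * (k : ℤ) ^ 2) ≤ 100 * (Jset k).card + 100 := by
    rw [h]
    generalize (k : ℤ) ^ 2 = w
    omega
  exact_mod_cast h2

lemma choose_eq {k : ℕ} (hk : 1 ≤ k) : 2 * k.choose 2 + k = k * k := by
  have e1 : k.choose 2 * 2 = k * (k - 1) := by
    rw [Nat.choose_two_right]
    exact Nat.div_mul_cancel (Nat.even_mul_pred_self k).two_dvd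
  obtain ⟨j, rfl⟩ : ∃ j, k = j + 1 := ⟨k - 1, by omega⟩
  rw [Nat.add_sub_cancel] at e1
  nlinarith

lemma gok {t k : ℕ} (ht : 10 ^ 80 ≤ t) (hk : t ^ 12 ≤ k) (hk' : k < (t + 1) ^ 12) :
    GOk (par t k) := by
  have u0 := up ht 0
  have u1 := up ht 1
  have u2 := up ht 2
  have u3 := up ht 3
  have u4 := up ht 4
  have u5 := up ht 5
  have u6 := up ht 6
  have u7 := up ht 7
  have u8 := up ht 8
  have u9 := up ht 9
  have u10 := up ht 10
  have u11 := up ht 11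
  simp only [pow_zero, mul_one, zero_add, pow_one] at u0
  simp only [pow_one] at u1
  norm_num at u0 u1 u2 u3 u4 u5 u6 u7 u8 u9 u10 u11
  have hs : ∃ s, Nat.sqrt (2 * 10 ^ 18 * t ^ 3) = s := ⟨_, rfl⟩
  obtain ⟨s, hs⟩ := hs
  have s1 : s * s ≤ 2 * 10 ^ 18 * t ^ 3 := by rw [← hs]; exact Nat.sqrt_le _
  have s3 : s ≤ 10 ^ 10 * t ^ 2 := by
    by_contra h
    rw [not_le] at h
    have h1 : (10 ^ 10 * t ^ 2) * (10 ^ 10 * t ^ 2) ≤ s * s := Nat.mul_le_mul h.le h.le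
    have h2 : (10 ^ 10 * t ^ 2) * (10 ^ 10 * t ^ 2) = 10 ^ 20 * t ^ 4 := by ring
    rw [h2] at h1
    norm_num at h1 s1
    linarith
  have k2 : 2 ≤ k := by linarith
  have kt : ∀ i, 10 ^ 80 * (k * t ^ i) ≤ k * t ^ (i + 1) := fun i => by
    have := Nat.mul_le_mul_left k (up ht i)
    calc 10 ^ 80 * (k * t ^ i) = k * (10 ^ 80 * t ^ i) := by ring
      _ ≤ _ := this
  have v0 := kt 0
  have v1 := kt 1
  have v2 := kt 2
  have kk3 : k * t ^ 3 ≤ k * k :=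
    Nat.mul_le_mul_left k (le_trans (Nat.pow_le_pow_right (by linarith) (by norm_num)) hk)
  simp only [pow_zero, mul_one, zero_add, pow_one] at v0
  simp only [pow_one] at v1
  norm_num at v0 v1 v2
  have hJ := cardJ k
  have hJ' : 6 * (k * k) ≤ 100 * (Jset k).card + 100 := by
    have : k ^ 2 = k * k := by ring
    rwa [this] at hJ
  have hM := choose_eq (k := k) (by linarith)
  refine
    { c1 := ⟨52 * 10 ^ 12 * t ^ 3, ?_, ?_⟩
      c2 := ⟨50 * t, fam1 ht k2 hk', ?_⟩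
      J1 := ?_
      J2 := ?_
      DM := ?_ }
  · simp only [par, hs]
    have f1 := fam1 ht k2 hk'
    have g1 : (3 * (2 * k.choose 2 + 1) ^ 2) ^ (10 ^ 12 * t ^ 2) ≤ 2 ^ (50 * 10 ^ 12 * t ^ 3) := by
      refine (Nat.pow_le_pow_left f1 _).trans (le_of_eq ?_)
      rw [← pow_mul]
      congr 1
      ring
    have g2 : (3 * (2 * k.choose 2 + 1) ^ 2) ^ (10 ^ 6 * t) ≤ 2 ^ (50 * 10 ^ 12 * t ^ 3) := by
      refine (Nat.pow_le_pow_left f1 _).trans ?_
      rw [← pow_mul]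
      refine Nat.pow_le_pow_right (by norm_num) ?_
      have e1 : 50 * t * (10 ^ 6 * t) = 50 * 10 ^ 6 * t ^ 2 := by ring
      rw [e1]
      linarith
    have g3 : (3 * (s + 1 + 1) * (2 * k.choose 2 + 1)) ^ (2 * (s + 1) + 1) ≤
        2 ^ (50 * 10 ^ 12 * t ^ 3) := by
      have h1 := two_pow_lt hk'
      have e1 : s + 2 ≤ k := by linarith
      have e2 : 3 * (s + 1 + 1) ≤ k * k := by nlinarith
      have e3 : 2 * k.choose 2 + 1 ≤ k * k := by linarith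
      have e4 : k * k ≤ 2 ^ (24 * t) := by
        refine (Nat.mul_le_mul h1 h1).trans (le_of_eq ?_)
        rw [← pow_add]
        congr 1
        ring
      have e5 : 3 * (s + 1 + 1) * (2 * k.choose 2 + 1) ≤ 2 ^ (48 * t) := by
        refine (Nat.mul_le_mul (e2.trans e4) (e3.trans e4)).trans (le_of_eq ?_)
        rw [← pow_add]
        congr 1
        ring
      refine (Nat.pow_le_pow_left e5 _).trans ?_
      rw [← pow_mul]
      refine Nat.pow_le_pow_right (by norm_num) ?_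
      have e6 : 2 * (s + 1) + 1 ≤ 10 ^ 12 * t ^ 2 := by linarith
      have e7 := Nat.mul_le_mul_left (48 * t) e6
      have e8 : 48 * t * (10 ^ 12 * t ^ 2) = 48 * 10 ^ 12 * t ^ 3 := by ring
      rw [e8] at e7
      linarith
    have g4 : 4 * 2 ^ (50 * 10 ^ 12 * t ^ 3) ≤ 2 ^ (52 * 10 ^ 12 * t ^ 3) := by
      have : 4 * 2 ^ (50 * 10 ^ 12 * t ^ 3) = 2 ^ (50 * 10 ^ 12 * t ^ 3 + 2) := by
        rw [pow_add]
        ring
      rw [this]
      refine Nat.pow_le_pow_right (by norm_num) ?_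
      linarith
    generalize (3 * (2 * k.choose 2 + 1) ^ 2) ^ (10 ^ 12 * t ^ 2) = A at g1 ⊢
    generalize (3 * (2 * k.choose 2 + 1) ^ 2) ^ (10 ^ 6 * t) = B at g2 ⊢
    generalize (3 * (s + 1 + 1) * (2 * k.choose 2 + 1)) ^ (2 * (s + 1) + 1) = C at g3 ⊢
    generalize 2 ^ (50 * 10 ^ 12 * t ^ 3) = X at g1 g2 g3 g4
    generalize 2 ^ (52 * 10 ^ 12 * t ^ 3) = Y at g4 ⊢
    omega
  · simp only [par]
    have hr : ∃ r, (Jset k).card / (400 * (4 * (32 * 10 ^ 12 * t ^ 2 * k) + 1)) = r := ⟨_, rfl⟩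
    obtain ⟨r, hr⟩ := hr
    have hlt : (Jset k).card < (400 * (4 * (32 * 10 ^ 12 * t ^ 2 * k) + 1)) * (r + 1) := by
      rw [← hr]
      exact Nat.lt_mul_div_succ _ (by positivity)
    rw [hr]
    have e1 : (400 * (4 * (32 * 10 ^ 12 * t ^ 2 * k) + 1)) * (r + 1) =
        51200 * 10 ^ 12 * (k * (t ^ 2 * (r + 1))) + 400 * (r + 1) := by ring
    rw [e1] at hlt
    have e2 : 10 ^ 80 * (r + 1) ≤ k * (t ^ 2 * (r + 1)) := by
      have e3 : 10 ^ 80 ≤ k * t ^ 2 := by linarith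
      have := Nat.mul_le_mul_right (r + 1) e3
      calc 10 ^ 80 * (r + 1) ≤ k * t ^ 2 * (r + 1) := this
        _ = _ := by ring
    have e4 : k * (6 * k) < k * (5120100 * 10 ^ 12 * (t ^ 2 * (r + 1))) := by
      have e5 : k * (5120100 * 10 ^ 12 * (t ^ 2 * (r + 1))) =
          5120100 * 10 ^ 12 * (k * (t ^ 2 * (r + 1))) := by ring
      have e6 : k * (6 * k) = 6 * (k * k) := by ring
      rw [e5, e6]
      linarith
    have e7 := Nat.lt_of_mul_lt_mul_left e4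
    have e8 := Nat.mul_le_mul_left t e7.le
    have e9 : t * (5120100 * 10 ^ 12 * (t ^ 2 * (r + 1))) =
        5120100 * 10 ^ 12 * (t ^ 3 * r) + 5120100 * 10 ^ 12 * t ^ 3 := by ring
    have e10 : t * (6 * k) = 6 * (k * t) := by ring
    rw [e9, e10] at e8
    have e11 : 2 * k * t + 4 + 52 * 10 ^ 12 * t ^ 3 * r =
        2 * (k * t) + 4 + 52 * 10 ^ 12 * (t ^ 3 * r) := by ring
    have e12 : 2 * 10 ^ 18 * t ^ 3 * r = 2 * 10 ^ 18 * (t ^ 3 * r) := by ring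
    rw [e11, e12]
    have e13 : 10 ^ 80 * t ^ 3 ≤ k * t := by
      have : t ^ 4 ≤ k := (Nat.pow_le_pow_right (by linarith) (by norm_num)).trans hk
      have h5 := Nat.mul_le_mul_right t this
      have h6 : t ^ 4 * t = t ^ 5 := by ring
      rw [h6] at h5
      norm_num
      linarith
    norm_num at e13
    linarith
  · simp only [par]
    have hr : ∃ r, (Jset k).card / (400 * (4 * (2 * 10 ^ 66 * t ^ 10) + 1)) = r := ⟨_, rfl⟩
    obtain ⟨r, hr⟩ := hr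
    have hlt : (Jset k).card < (400 * (4 * (2 * 10 ^ 66 * t ^ 10) + 1)) * (r + 1) := by
      rw [← hr]
      exact Nat.lt_mul_div_succ _ (by positivity)
    rw [hr]
    have e1 : 400 * (4 * (2 * 10 ^ 66 * t ^ 10) + 1) ≤ 10 ^ 80 * t ^ 10 := by
      have h0 : 1 ≤ t ^ 10 := Nat.one_le_pow _ _ (by linarith only [u0])
      norm_num
      linarith only [h0]
    have e2 : 100 * (10 ^ 80 * t ^ 10) ≤ k := by
      norm_num
      linarith only [u10, u11, hk]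
    have e3 := (Nat.mul_le_mul_left 100 e1).trans e2
    have e4 := Nat.mul_le_mul_right (r + 1) e3
    have e5 : 6 * (k * k) ≤ k * (r + 1) + 100 := by
      have e6 : 100 * (400 * (4 * (2 * 10 ^ 66 * t ^ 10) + 1)) * (r + 1) =
          100 * ((400 * (4 * (2 * 10 ^ 66 * t ^ 10) + 1)) * (r + 1)) := by ring
      rw [e6] at e4
      linarith only [hlt, e4, hJ']
    have e7 : 3 * k ≤ r := by
      by_contra h
      rw [not_le] at h
      have h1 : r + 1 ≤ 3 * k := h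
      have h2 := Nat.mul_le_mul_left k h1
      have h3 : k * (3 * k) = 3 * (k * k) := by ring
      rw [h3] at h2
      have h4 : 100 * k ≤ k * k := Nat.mul_le_mul_right k (by linarith only [u0, u1, u2, u3, u4,
        u5, u6, u7, u8, u9, u10, u11, hk])
      linarith only [h2, h4, e5, k2]
    have e8 := Nat.mul_le_mul_right t e7
    have e9 : 2 * 10 ^ 6 * t * r = 2 * 10 ^ 6 * (r * t) := by ring
    have e10 : 2 * k * t + 4 + 50 * t * r = 2 * (k * t) + 4 + 50 * (r * t) := by ring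
    have e11 : 3 * k * t = 3 * (k * t) := by ring
    rw [e11] at e8
    rw [e9, e10]
    have e12 : 4 ≤ k * t := by
      have := Nat.mul_le_mul k2 u0
      linarith only [this]
    linarith only [e8, e12]
  · simp only [par]
    have e1 : 2 * (2 * k * t + 4) + 1 = 4 * (k * t) + 9 := by ring
    rw [e1]
    linarith
  · simp only [par, Par.n]
    have e1 : 4 * (8 * (10 ^ 12 * t ^ 2) * k) + 4 = 32 * 10 ^ 12 * (k * t ^ 2) + 4 := by ring
    rw [e1]
    linarith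
  · simp only [par]
    have e1 : 2 * (2 * k * t) + 10 = 4 * (k * t) + 10 := by ring
    rw [e1]
    linarith

lemma root12 (k : ℕ) : ∃ t, t ^ 12 ≤ k ∧ k < (t + 1) ^ 12 := by
  induction k with
  | zero => exact ⟨0, by norm_num, by norm_num⟩
  | succ k ih =>
    obtain ⟨t, h1, h2⟩ := ih
    by_cases h : k + 1 < (t + 1) ^ 12
    · exact ⟨t, by omega, h⟩
    · refine ⟨t + 1, by omega, ?_⟩
      have h3 : (t + 1) ^ 12 < (t + 1 + 1) ^ 12 := Nat.pow_lt_pow_left (by omega) (by norm_num)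
      omega

theorem pf_NUM : T_NUM := by
  refine ⟨(10 ^ 80 + 1) ^ 12, fun k hk => ?_⟩
  obtain ⟨t, h1, h2⟩ := root12 k
  have ht : 10 ^ 80 ≤ t := by
    by_contra h
    rw [not_le] at h
    have h3 : (t + 1) ^ 12 ≤ (10 ^ 80 + 1) ^ 12 := Nat.pow_le_pow_left (by linarith) 12
    exact absurd (lt_of_lt_of_le h2 h3) (not_lt.2 hk)
  refine ⟨par t k, ok ht h1, gok ht h1 h2, rfl, ?_⟩
  have hk1 : (1 : ℝ) ≤ k := by
    have : 1 ≤ k := le_trans (Nat.one_le_pow _ _ (le_trans (by norm_num) ht)) h1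
    exact_mod_cast this
  have ht1 : (1 : ℝ) ≤ t := by
    have : 1 ≤ t := le_trans (by norm_num) ht
    exact_mod_cast this
  have h3 : (k : ℝ) ^ (1 / 12 : ℝ) ≤ t + 1 := by
    have h4 : (k : ℝ) ≤ ((t : ℝ) + 1) ^ (12 : ℕ) := by exact_mod_cast h2.le
    calc (k : ℝ) ^ (1 / 12 : ℝ) ≤ (((t : ℝ) + 1) ^ (12 : ℕ)) ^ (1 / 12 : ℝ) :=
          Real.rpow_le_rpow (by positivity) h4 (by norm_num)
      _ = t + 1 := by
          rw [← Real.rpow_natCast, ← Real.rpow_mul (by positivity)]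
          norm_num
  have h5 : (k : ℝ) ^ (13 / 12 : ℝ) = k * (k : ℝ) ^ (1 / 12 : ℝ) := by
    rw [show (13 / 12 : ℝ) = 1 + 1 / 12 by norm_num, Real.rpow_add (by linarith), Real.rpow_one]
  have h6 : ((par t k).D : ℝ) = 2 * k * t := by
    simp [par]
  rw [h5, h6]
  calc (k : ℝ) * (k : ℝ) ^ (1 / 12 : ℝ) ≤ k * (t + 1) :=
        mul_le_mul_of_nonneg_left h3 (by linarith)
    _ ≤ 2 * k * t := by nlinarith

end Pool.Agent.H47.KSU
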