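import Pool.Agent.H47.KS.Sym

/-!
MP_90d669_co, board ksu_modules, row TYP.
-/

set_option autoImplicit false

namespace Pool.Agent.H47.KSU

open Finset Pool.Agent.H37.SP Pool.Agent.H47.KS

lemma mem_Jset {k : ℕ} {y : ℤ} : y ∈ Jset k ↔ inJ k y := by
  unfold Jset inJ
  rw [Finset.mem_Icc]
  constructor
  · rintro ⟨h1, h2⟩
    constructor
    · omega
    · omega
  · rintro ⟨h1, h2⟩
    constructor
    · omega
    · omega

theorem pf_TYP (hLOC : T_LOC) (hFIN : T_FIN) (hCEL : T_CEL) : T_TYP := by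
  classical
  intro P S N G hP hG hS hJ hlo hhi
  by_contra hcon
  rw [not_or] at hcon
  obtain ⟨hc1, hc2⟩ := hcon
  obtain ⟨z0, hz0, hz0'⟩ := hlo
  obtain ⟨z1, hz1, hz1'⟩ := hhi
  obtain ⟨A0, hA0, rfl⟩ := (hS z0).2 hz0
  obtain ⟨A1, hA1, rfl⟩ := (hS z1).2 hz1
  set SJ := S ∩ Jset P.k with hSJ
  set Y1 := SJ.filter (fun y => R1 P (SS P.k G) y) with hY1
  set Y2 := SJ.filter (fun y => R2 P (SS P.k G) y) with hY2
  set Y3 := SJ.filter (fun y => ¬ R1 P (SS P.k G) y ∧ ¬ R2 P (SS P.k G) y) with hY3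
  have h1 : 400 * Y1.card ≤ (Jset P.k).card := by
    by_contra h
    rw [not_le] at h
    exact hc1 ⟨Y1, filter_subset _ _, h, fun y hy => (mem_filter.1 hy).2⟩
  have h2 : 400 * Y2.card ≤ (Jset P.k).card := by
    by_contra h
    rw [not_le] at h
    exact hc2 ⟨Y2, filter_subset _ _, h, fun y hy => (mem_filter.1 hy).2⟩
  have hcov : SJ.card ≤ Y1.card + Y2.card + Y3.card := by
    have : SJ ⊆ Y1 ∪ Y2 ∪ Y3 := by
      intro y hy
      rw [mem_union, mem_union]
      by_cases a : R1 P (SS P.k G) y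
      · exact Or.inl (Or.inl (mem_filter.2 ⟨hy, a⟩))
      by_cases b : R2 P (SS P.k G) y
      · exact Or.inl (Or.inr (mem_filter.2 ⟨hy, b⟩))
      · exact Or.inr (mem_filter.2 ⟨hy, a, b⟩)
    refine (card_le_card this).trans ((card_union_le _ _).trans ?_)
    have := card_union_le Y1 Y2
    omega
  -- every element of Y3 has a quadratic progression
  have hprg : ∀ y ∈ Y3, Prg P (SS P.k G) y ∧ ¬ R1 P (SS P.k G) y := by
    intro y hy
    obtain ⟨hy1, hy2, hy3⟩ := mem_filter.1 hy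
    rw [hSJ, mem_inter] at hy1
    obtain ⟨C, hC, rfl⟩ := (hS y).2 hy1.1
    rcases hLOC P N G A0 A1 C hP hA0 hA1 hC hz0' hz1' (mem_Jset.1 hy1.2) with h | h | h
    · exact absurd h hy2
    · exact absurd h hy3
    · exact ⟨h, hy2⟩
  have hnk : 1 ≤ P.n * P.k := by
    have a := hP.nu1
    have b := hP.k2
    have c : 1 ≤ P.n := by
      unfold Par.n
      omega
    exact Nat.mul_pos c (by omega)
  set lo : ℤ := (22 * (P.k : ℤ) ^ 2 + 99) / 100 with hlo
  have hY3c := hCEL (P.n * P.k) (Jset P.k).card lo Y3 hnk (by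
    intro y hy
    have hy1 := (mem_filter.1 hy).1
    rw [hSJ, mem_inter] at hy1
    have hy2 := hy1.2
    unfold Jset at hy2
    rw [Finset.mem_Icc] at hy2
    have hcard : ((Jset P.k).card : ℤ) = 28 * (P.k : ℤ) ^ 2 / 100 + 1 - lo := by
      unfold Jset
      rw [Int.card_Icc]
      omega
    rw [hcard]
    omega) (by
    intro z
    refine hFIN P (SS P.k G) z _ hP ?_
    intro y hy
    obtain ⟨hy1, hy2, hy3⟩ := mem_filter.1 hy
    exact ⟨hy2, hy3, hprg y hy1⟩)
  have hJ2 := hG.J2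
  omega

end Pool.Agent.H47.KSU
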