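import Pool.Agent.H47.KS.Basic
import Pool.Agent.H47.KS.Targets

/-!
Row VAL: values of the exact configuration.
-/

set_option autoImplicit false

namespace Pool.Agent.H47.KSU

open Finset Pool.Agent.H47.KS

theorem ee_clq {N : ℕ} (G : SimpleGraph (Fin N)) (A : Finset (Fin N))
    (h : ∀ a ∈ A, ∀ b ∈ A, a ≠ b → aa G a b = 1) : ee G A = C2 A.card := by
  have h1 := two_mul_ee G A
  have h2 : ∑ x ∈ A, dg G A x = ∑ x ∈ A, ((A.card : ℤ) - 1) := by
    refine sum_congr rfl fun x hx => ?_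
    unfold dg
    rw [← add_sum_erase A _ hx, aa_self, zero_add]
    have : ∑ y ∈ A.erase x, aa G x y = ∑ y ∈ A.erase x, (1 : ℤ) :=
      sum_congr rfl fun y hy => h x hx y (mem_of_mem_erase hy) (ne_of_mem_erase hy).symm
    rw [this, sum_const, nsmul_eq_mul, mul_one, card_erase_of_mem hx]
    have : 1 ≤ A.card := card_pos.2 ⟨x, hx⟩
    rw [Nat.cast_sub this]
    simp
  rw [h2, sum_const, nsmul_eq_mul] at h1
  have h3 := two_C2 (A.card : ℤ)
  omega

theorem ee_indep {N : ℕ} (G : SimpleGraph (Fin N)) (A : Finset (Fin N))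
    (h : ∀ a ∈ A, ∀ b ∈ A, a ≠ b → aa G a b = 0) : ee G A = 0 := by
  have h1 := two_mul_ee G A
  have h2 : ∑ x ∈ A, dg G A x = 0 := by
    refine sum_eq_zero fun x hx => ?_
    unfold dg
    refine sum_eq_zero fun y hy => ?_
    by_cases hxy : x = y
    · rw [hxy, aa_self]
    · exact h x hx y hy hxy
  omega

theorem pf_VAL : T_VAL := by
  intro P N G C K I Z Y wK wI sK sI t _ hE hYZ hYn htY
  obtain ⟨K', hK', cK'⟩ := Finset.exists_subset_card_eq (s := K) (n := t)
    (by rw [hE.cK]; omega)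
  obtain ⟨I', hI', cI'⟩ := Finset.exists_subset_card_eq (s := I) (n := Y.card - t)
    (by rw [hE.cI]; omega)
  have hYC : Y ⊆ C := hYZ.trans hE.ZC
  have dKI : Disjoint K' I' := hE.dKI.mono hK' hI'
  have hO : Disjoint C (K' ∪ I') := by
    rw [disjoint_union_right]
    exact ⟨(hE.dKC.mono_left hK').symm, (hE.dIC.mono_left hI').symm⟩
  have hc : (K' ∪ I').card = Y.card := by
    rw [card_union_of_disjoint dKI, cK', cI']
    omega
  have e0 := ee_swap G hYC hO
  have e1 : ∑ o ∈ K' ∪ I', dg G C o = (t : ℤ) * wK + ((Y.card : ℤ) - t) * wI := by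
    rw [sum_union dKI, sum_congr rfl fun a ha => hE.wtK a (hK' ha),
      sum_congr rfl fun a ha => hE.wtI a (hI' ha), sum_const, sum_const, nsmul_eq_mul,
      nsmul_eq_mul, cK', cI', Nat.cast_sub htY]
  have e2 : ee G (K' ∪ I') = C2 t := by
    rw [ee_union G dKI, ee_clq G K' (fun a ha b hb => hE.clq a (hK' ha) b (hK' hb)),
      ee_indep G I' (fun a ha b hb => hE.ind a (hI' ha) b (hI' hb)), cK']
    have : ∑ b ∈ I', dg G K' b = 0 := by
      refine sum_eq_zero fun b hb => sum_eq_zero fun a ha => ?_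
      rw [aa_symm]
      exact hE.KI a (hK' ha) b (hI' hb)
    rw [this]
    ring
  have e3 : ∑ o ∈ K' ∪ I', dg G Y o = (t : ℤ) * ∑ x ∈ Y, sK x +
      ((Y.card : ℤ) - t) * ∑ x ∈ Y, sI x := by
    have h1 : ∀ a ∈ K', dg G Y a = ∑ x ∈ Y, sK x := fun a ha =>
      sum_congr rfl fun x hx => hE.ZK a (hK' ha) x (hYZ hx)
    have h2 : ∀ a ∈ I', dg G Y a = ∑ x ∈ Y, sI x := fun a ha =>
      sum_congr rfl fun x hx => hE.ZI a (hI' ha) x (hYZ hx)
    rw [sum_union dKI, sum_congr rfl h1, sum_congr rfl h2, sum_const, sum_const, nsmul_eq_mul,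
      nsmul_eq_mul, cK', cI', Nat.cast_sub htY]
  have e4 : ee G ((C \ Y) ∪ (K' ∪ I')) =
      off G C wK wI sK sI Y + C2 ((t : ℤ) + slp wK wI sK sI Y) := by
    rw [e0, e1, e2, e3]
    unfold off
    rw [C2_add]
    unfold slp
    ring
  have hcard := card_swap hYC hO hc
  rw [hE.cC] at hcard
  refine ⟨⟨_, hcard, e4⟩, ?_⟩
  rw [← e4]
  refine (swap_dist G hE.cC hYC hO hc).trans ?_
  rw [Nat.cast_mul]
  exact mul_le_mul_of_nonneg_right (by exact_mod_cast hYn) (by positivity)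

end Pool.Agent.H47.KSU
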