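import Pool.Agent.H1.KSU.FEW
import Pool.Agent.H1.KSU.PCD
import Pool.Agent.H1.KSU.SEP
import Pool.Agent.H11.KSU.LKA
import Pool.Agent.H12.KSU.CNT
import Pool.Agent.H2.KSU.CSX
import Pool.Agent.H20.KSU.FIN
import Pool.Agent.H20.KSU.LKB
import Pool.Agent.H32.KSU.Hom
import Pool.Agent.H35.KSU.FAP
import Pool.Agent.H47.KSU.CLM
import Pool.Agent.H47.KSU.LGD
import Pool.Agent.H47.KSU.LOC
import Pool.Agent.H47.KSU.NUM
import Pool.Agent.H47.KSU.TRA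
import Pool.Agent.H47.KSU.TYP
import Pool.Agent.H47.KSU.VAL
import Pool.Agent.H5.KSU.INT
import Pool.Agent.H5.KSU.WL
import Pool.Agent.H6.KS.RIC
import Pool.Agent.H60.KSU.FAA
import Pool.Agent.H60.KSU.TUR
import Pool.Agent.H68.KSU.APR
import Pool.Agent.H68.KSU.BIN
import Pool.Agent.H7.KSU.QUA
import Pool.Agent.H74.KSU.CNY
import Pool.Agent.H78.KSU.ANC
import Pool.Agent.H78.KSU.LX
import Pool.Agent.H79.KSU.CEL
import Pool.Agent.H79.KSU.CSR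
import Pool.Agent.H79.KSU.LCK
import Pool.Agent.H94.KSU.CS1
import Pool.Agent.H94.KSU.SUM
import Pool.Agent.H47.KS.Sym

/-!
MP_90d669_co: assembly of the board ksu_modules.
-/

set_option autoImplicit false

namespace Pool.Agent.H47.KSU

open Pool.Agent.H37.SP Pool.Agent.H47.KS

theorem ok_AE : T_AE := Pool.Agent.H32.KSU.pf_AE
theorem ok_APR : T_APR := Pool.Agent.H68.KSU.pf_APR
theorem ok_BIN : T_BIN := Pool.Agent.H68.KSU.pf_BIN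
theorem ok_CEL : T_CEL := Pool.Agent.H79.KSU.pf_CEL
theorem ok_CNY : T_CNY := Pool.Agent.H74.KSU.pf_CNY
theorem ok_CSP : T_CSP := Pool.Agent.H5.KSU.pf_CSP
theorem ok_FAA : T_FAA := Pool.Agent.H60.KSU.pf_FAA
theorem ok_FAP : T_FAP := Pool.Agent.H35.KSU.pf_FAP
theorem ok_HOM : T_HOM := Pool.Agent.H32.KSU.pf_HOM
theorem ok_HOP : T_HOP := Pool.Agent.H32.KSU.pf_HOP
theorem ok_INT : T_INT := Pool.Agent.H5.KSU.pf_INT
theorem ok_LX : T_LX := Pool.Agent.H78.KSU.pf_LX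
theorem ok_MIS : T_MIS := Pool.Agent.H5.KSU.pf_MIS
theorem ok_NUM : T_NUM := Pool.Agent.H47.KSU.pf_NUM
theorem ok_PCD : T_PCD := Pool.Agent.H1.KSU.pf_PCD
theorem ok_QF : T_QF := Pool.Agent.H5.KSU.pf_QF
theorem ok_QUA : T_QUA := Pool.Agent.H7.KSU.pf_QUA
theorem ok_RIC : T_RIC := Pool.Agent.H6.KS.pf_RIC
theorem ok_SEP : T_SEP := Pool.Agent.H1.KSU.pf_SEP
theorem ok_SUM : T_SUM := Pool.Agent.H94.KSU.pf_SUM
theorem ok_TRA : T_TRA := Pool.Agent.H47.KSU.pf_TRA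
theorem ok_TUR : T_TUR := Pool.Agent.H60.KSU.pf_TUR
theorem ok_UNI : T_UNI := Pool.Agent.H5.KSU.pf_UNI ok_INT
theorem ok_VAL : T_VAL := Pool.Agent.H47.KSU.pf_VAL
theorem ok_WL : T_WL := Pool.Agent.H5.KSU.pf_WL
theorem ok_WS : T_WS := Pool.Agent.H5.KSU.pf_WS
theorem ok_ANC : T_ANC := Pool.Agent.H78.KSU.pf_ANC ok_TUR
theorem ok_CSX : T_CSX := Pool.Agent.H2.KSU.pf_CSX ok_APR ok_AE ok_HOM
theorem ok_FEW : T_FEW := Pool.Agent.H1.KSU.pf_FEW ok_SUM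
theorem ok_FIN : T_FIN := Pool.Agent.H20.KSU.pf_FIN ok_UNI ok_CNY
theorem ok_LCK : T_LCK := Pool.Agent.H79.KSU.pf_LCK ok_APR ok_AE ok_WL
theorem ok_LGD : T_LGD := Pool.Agent.H47.KSU.pf_LGD ok_PCD
theorem ok_LKA : T_LKA := Pool.Agent.H11.KSU.pf_LKA ok_LGD ok_LCK ok_HOP
theorem ok_LKB : T_LKB := Pool.Agent.H20.KSU.pf_LKB ok_LKA ok_LGD ok_LCK ok_HOM
theorem ok_OFF : T_OFF := Pool.Agent.H5.KSU.pf_OFF ok_VAL ok_UNI
theorem ok_CLM : T_CLM := Pool.Agent.H47.KSU.pf_CLM ok_LKB ok_LX ok_VAL ok_QF ok_QUA ok_OFF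
theorem ok_CS1 : T_CS1 := Pool.Agent.H94.KSU.pf_CS1 ok_CSX ok_CSP ok_PCD ok_WS
theorem ok_CSR : T_CSR := Pool.Agent.H79.KSU.pf_CSR ok_CS1
theorem ok_LOC : T_LOC := Pool.Agent.H47.KSU.pf_LOC ok_ANC ok_FEW ok_CSR ok_CLM
theorem ok_TYP : T_TYP := Pool.Agent.H47.KSU.pf_TYP ok_LOC ok_FIN ok_CEL
theorem ok_CNT : T_CNT := Pool.Agent.H12.KSU.pf_CNT ok_TYP ok_MIS ok_BIN ok_RIC ok_FAP ok_FAA ok_SEP ok_TRA

theorem final : ∃ k₀ : ℕ, ∀ k ≥ k₀,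
    (nk k : ℝ) ≤ (2 : ℝ) ^ ((k.choose 2 : ℝ) - (k : ℝ) ^ (13 / 12 : ℝ)) := by
  obtain ⟨k0, h⟩ := ok_NUM
  refine ⟨k0, fun k hk => ?_⟩
  obtain ⟨P, hP, hG, rfl, hD⟩ := h k hk
  have h1 := ok_CNT P hP hG
  have h2 : (nk P.k : ℝ) ≤ (2 : ℝ) ^ (P.k.choose 2 - P.D) := by exact_mod_cast h1
  refine h2.trans ?_
  rw [← Real.rpow_natCast]
  refine Real.rpow_le_rpow_of_exponent_le (by norm_num) ?_
  have h3 : P.D ≤ P.k.choose 2 := by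
    have := hG.DM
    omega
  rw [Nat.cast_sub h3]
  linarith

end Pool.Agent.H47.KSU
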