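import Pool.Agent.H47.KS.Targets

/-!
MP_90d669_co, board ksu_modules, row TRA.
-/

set_option autoImplicit false

namespace Pool.Agent.H47.KSU

open Finset Pool.Agent.H37.SP Pool.Agent.H47.KS

theorem pf_TRA : T_TRA := by
  classical
  intro k B hB
  unfold nk
  have hinj : Function.Injective (fun S : Set ℕ => ((fun q : ℕ => (q : ℤ)) '' S)) :=
    Set.image_injective.2 (fun a b h => by exact_mod_cast h)
  have key : (fun S : Set ℕ => ((fun q : ℕ => (q : ℤ)) '' S)) '' {S : Set ℕ | Realizable k S} ⊆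
      (fun T : Finset ℤ => (T : Set ℤ)) '' (B : Set (Finset ℤ)) := by
    rintro _ ⟨S, ⟨N, hN, G, rfl⟩, rfl⟩
    have hfin : (SS k G).Finite :=
      (Set.finite_Icc (0 : ℤ) (C2 k)).subset fun z hz => ⟨(SS_bounds G hz).1, (SS_bounds G hz).2⟩
    refine ⟨hfin.toFinset, ?_, ?_⟩
    · exact hB _ N G hN fun z => by simp
    · ext z
      simp only [Set.Finite.coe_toFinset, Set.mem_image]
      constructor
      · rintro ⟨A, hA, hz⟩
        exact ⟨ecount G A, ⟨A, hA, rfl⟩, hz⟩
      · rintro ⟨q, ⟨A, hA, rfl⟩, hz⟩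
        exact ⟨A, hA, hz⟩
  have h1 := Set.ncard_le_ncard key (Set.toFinite _)
  rw [Set.ncard_image_of_injective _ hinj] at h1
  refine h1.trans ((Set.ncard_image_le (Set.toFinite _)).trans ?_)
  rw [Set.ncard_coe_finset]

end Pool.Agent.H47.KSU
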